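import Pool.Agent.K3h1.PS.Per

set_option autoImplicit false

/-!
Families of sequences which depend polynomially on parameters, for a fixed simple recurrence.
-/

namespace Pool.Agent.K3h1.PS

open Pool.Agent.H684R3.Smo Pool.Agent.H884R2.Sko Pool.Agent.H692R2.USS Pool.Agent.TH838.SK
  Polynomial Finset

/-- the value at `(k, y)` of the polynomial with coefficients `w` -/
def val2 {R ι κ : Type} [CommRing R] [Fintype ι] [DecidableEq ι] [Fintype κ] [DecidableEq κ]
    {r : ℕ} (w : (ι → Fin (r + 1)) × (κ → Fin (r + 1)) → R) (k : ι → R) (y : κ → R) : R :=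
  ∑ e, w e * ((∏ i, k i ^ (e.1 i : ℕ)) * ∏ q, y q ^ (e.2 q : ℕ))

section

variable {R ι κ : Type} [CommRing R] [Fintype ι] [DecidableEq ι] [Fintype κ] [DecidableEq κ]
  {r : ℕ}

theorem val2_eq (w : (ι → Fin (r + 1)) × (κ → Fin (r + 1)) → R) (k : ι → R) (y : κ → R) :
    val2 w k y = ev1 (fun m => ∑ f, w (m, f) * ∏ q, y q ^ (f q : ℕ)) k := by
  unfold val2 ev1
  rw [Fintype.sum_prod_type]
  refine Finset.sum_congr rfl fun m _ => ?_
  rw [Finset.sum_mul]
  refine Finset.sum_congr rfl fun f _ => ?_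
  ring

theorem val2_cast (p : ℕ) (w : (ι → Fin (r + 1)) × (κ → Fin (r + 1)) → ℤ) (k : ι → ℤ)
    (y : κ → ℤ) : ((val2 w k y : ℤ) : ZMod p) =
      val2 (fun e => (w e : ZMod p)) (fun i => (k i : ZMod p)) (fun i => (y i : ZMod p)) := by
  simp [val2]

/-- some coefficient with respect to the parameters is the nonzero constant `w (m, 0)` -/
def AdmAt (w : (ι → Fin (r + 1)) × (κ → Fin (r + 1)) → R) (m : ι → Fin (r + 1)) : Prop :=
  w (m, 0) ≠ 0 ∧ ∀ f, f ≠ 0 → w (m, f) = 0

end

open Classical in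
theorem card_good (p : ℕ) [Fact p.Prime] {ι κ : Type} [Fintype ι] [DecidableEq ι] [Fintype κ]
    [DecidableEq κ] {r : ℕ} (l T : ℕ) (hT : l * T = p - 1) (hl : 2 * (Fintype.card ι * r) ≤ l)
    (st : ℕ → κ → ZMod p) (hst : Function.Periodic st T)
    (w : (ι → Fin (r + 1)) × (κ → Fin (r + 1)) → ZMod p) (m : ι → Fin (r + 1))
    (hw : AdmAt w m) :
    (1 / 2 : ℝ) * (p : ℝ) ^ Fintype.card ι ≤
      (Nat.card {k : ι → ZMod p | ∀ n, val2 w k (st n) ≠ 0} : ℝ) := by
  have hprime : p.Prime := Fact.out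
  have hp2 : 2 ≤ p := hprime.two_le
  have hTpos : 0 < T := by
    rcases Nat.eq_zero_or_pos T with h | h
    · rw [h, mul_zero] at hT
      omega
    · exact h
  set N := Fintype.card ι with hN
  set bad := (univ : Finset (ι → ZMod p)).filter (fun k => ∃ n, val2 w k (st n) = 0) with hbad
  have hone : ∀ y : κ → ZMod p,
      ((univ : Finset (ι → ZMod p)).filter (fun k => val2 w k y = 0)).card * p ≤
        N * r * p ^ N := by
    intro y
    have h1 := card_zero (K := ZMod p) (ι := ι) (r := r)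
      (fun m => ∑ f, w (m, f) * ∏ q, y q ^ (f q : ℕ)) (by
        intro h
        have h2 := congrFun h m
        simp only [Pi.zero_apply] at h2
        rw [Finset.sum_eq_single (0 : κ → Fin (r + 1))] at h2
        · simp only [Pi.zero_apply, Fin.val_zero, pow_zero, Finset.prod_const_one, mul_one] at h2
          exact hw.1 h2
        · intro f _ hf
          rw [hw.2 f hf, zero_mul]
        · intro h
          exact absurd (mem_univ _) h)
    rw [ZMod.card] at h1
    have e : (univ : Finset (ι → ZMod p)).filter (fun k => val2 w k y = 0) =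
        (univ : Finset (ι → ZMod p)).filter (fun k =>
          ev1 (fun m => ∑ f, w (m, f) * ∏ q, y q ^ (f q : ℕ)) k = 0) := by
      apply Finset.filter_congr
      intro k _
      rw [val2_eq]
    rw [e]
    exact h1
  have hsub : bad ⊆ (range T).biUnion
      (fun n => (univ : Finset (ι → ZMod p)).filter (fun k => val2 w k (st n) = 0)) := by
    intro k hk
    rw [hbad, Finset.mem_filter] at hk
    obtain ⟨_, n, hn⟩ := hk
    rw [Finset.mem_biUnion]
    refine ⟨n % T, Finset.mem_range.2 (Nat.mod_lt _ hTpos), ?_⟩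
    rw [Finset.mem_filter, hst.map_mod_nat]
    exact ⟨mem_univ _, hn⟩
  have h1 : bad.card * p ≤ T * (N * r * p ^ N) := by
    calc bad.card * p ≤ ((range T).biUnion
          (fun n => (univ : Finset (ι → ZMod p)).filter
            (fun k => val2 w k (st n) = 0))).card * p :=
          Nat.mul_le_mul_right _ (Finset.card_le_card hsub)
      _ ≤ (∑ n ∈ range T, ((univ : Finset (ι → ZMod p)).filter
            (fun k => val2 w k (st n) = 0)).card) * p :=
          Nat.mul_le_mul_right _ Finset.card_biUnion_le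
      _ = ∑ n ∈ range T, ((univ : Finset (ι → ZMod p)).filter
            (fun k => val2 w k (st n) = 0)).card * p := Finset.sum_mul _ _ _
      _ ≤ ∑ _n ∈ range T, N * r * p ^ N := Finset.sum_le_sum fun n _ => hone _
      _ = T * (N * r * p ^ N) := by rw [Finset.sum_const, Finset.card_range, smul_eq_mul]
  have h2 : 2 * bad.card * p ≤ p ^ N * p := by
    calc 2 * bad.card * p = 2 * (bad.card * p) := by ring
      _ ≤ 2 * (T * (N * r * p ^ N)) := Nat.mul_le_mul_left _ h1
      _ = (2 * (N * r)) * T * p ^ N := by ring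
      _ ≤ l * T * p ^ N := Nat.mul_le_mul_right _ (Nat.mul_le_mul_right _ hl)
      _ = (p - 1) * p ^ N := by rw [hT]
      _ ≤ p * p ^ N := Nat.mul_le_mul_right _ (Nat.sub_le _ _)
      _ = p ^ N * p := by ring
  have h3 : 2 * bad.card ≤ p ^ N := Nat.le_of_mul_le_mul_right h2 hprime.pos
  have hsum := Finset.card_filter_add_card_filter_not (s := (univ : Finset (ι → ZMod p)))
    (fun k => ∃ n, val2 w k (st n) = 0)
  rw [Finset.card_univ, Fintype.card_fun, ZMod.card, ← hbad, ← hN] at hsum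
  have hcard : Nat.card {k : ι → ZMod p | ∀ n, val2 w k (st n) ≠ 0} =
      ((univ : Finset (ι → ZMod p)).filter (fun k => ¬ ∃ n, val2 w k (st n) = 0)).card := by
    rw [Nat.card_eq_fintype_card, Fintype.card_subtype]
    congr 1
    apply Finset.filter_congr
    intro k _
    simp only [Set.mem_ofPred_eq, not_exists, ne_eq]
  rw [hcard]
  have h4 : p ^ N ≤ 2 * ((univ : Finset (ι → ZMod p)).filter
      (fun k => ¬ ∃ n, val2 w k (st n) = 0)).card := by omega
  have h5 : ((p ^ N : ℕ) : ℝ) ≤ ((2 * ((univ : Finset (ι → ZMod p)).filter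
      (fun k => ¬ ∃ n, val2 w k (st n) = 0)).card : ℕ) : ℝ) := by exact_mod_cast h4
  push_cast at h5
  linarith

/-- All families with initial values near `a₀` have certificates at the parameters `k`. -/
def Easy0 {d s t : ℕ} (r : ℕ) (c : Fin d → ℤ) (a₀ : Fin s × Fin d → ℤ) (X Y : ℝ)
    (k : Fin t → ℤ) : Prop :=
  ∀ (a : Fin s × Fin d → ℤ) (u : Fin s → ℕ → ℤ), (∀ j, IsSeq c (fun i => a (j, i)) (u j)) →
    (∀ q, |((a q - a₀ q : ℤ) : ℝ)| ≤ X) →
    ∀ w : (Fin t → Fin (r + 1)) × (Fin s × Fin d → Fin (r + 1)) → ℤ, (∃ m, AdmAt w m) →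
      (∀ e, |(w e : ℝ)| ≤ X) →
      ∃ p : ℕ, p.Prime ∧ (p : ℝ) ≤ Y ∧ ∀ n,
        ¬ (p : ℤ) ∣ val2 w k (fun q => u q.1 (n + q.2)) ∧
        (p : ℤ) ∣ val2 w k (fun q => u q.1 (n + (p - 1) + q.2)) -
          val2 w k (fun q => u q.1 (n + q.2))

theorem main (d : ℕ) (hd : 1 ≤ d) (c : Fin d → ℤ) (hc : c ⟨d - 1, by omega⟩ ≠ 0)
    (hsq : Squarefree ((charPoly c).map (Int.castRingHom ℚ))) (s t r : ℕ) :
    ∃ A δ : ℝ, 0 < A ∧ 0 < δ ∧ ∃ H₀ : ℕ, ∀ H : ℕ, H₀ ≤ H →
      ∀ (a₀ : Fin s × Fin d → ℤ) (b : Fin t → ℤ),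
      (Nat.card {k : Fin t → ℤ // k ∈ bx b H ∧
        ¬ Easy0 r c a₀ ((H : ℝ) ^ δ) (Real.log H ^ A) k} : ℝ) ≤
        (2 * (H : ℝ) + 1) ^ t * (H : ℝ) ^ (-δ) := by
  classical
  set c' : Fin d → ℤ := fun i => c (Fin.rev i) with hc'
  rw [charPoly_eq] at hsq
  have h0 : (chi c').coeff 0 ≠ 0 := by
    have := chi_coeff c' ⟨0, by omega⟩
    simp only at this
    rw [this, neg_ne_zero, hc']
    have e : Fin.rev (⟨0, by omega⟩ : Fin d) = ⟨d - 1, by omega⟩ := by
      apply Fin.ext
      rw [Fin.val_rev]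
    simp only
    rw [e]
    exact hc
  set l : ℕ := 2 * (t * r + 1) with hl
  obtain ⟨θ, hθ, hcount⟩ := primes_per l (by omega) c' h0 hsq 3
  obtain ⟨A, δ, hA, hδ, H₀, hmain⟩ := sieve_unif (Fin t)
    ((Fin s × Fin d) ⊕ ((Fin t → Fin (r + 1)) × (Fin s × Fin d → Fin (r + 1))))
    (PerP l c' 3) (1 / 2) θ 1 1 (by norm_num) hθ le_rfl hcount (fun p hp => hp.1)
  refine ⟨A, δ, hA, hδ, H₀, fun H hH a₀ b => ?_⟩
  let W : ((Fin s × Fin d) ⊕ ((Fin t → Fin (r + 1)) × (Fin s × Fin d → Fin (r + 1))) → ℤ) →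
    (Fin t → Fin (r + 1)) × (Fin s × Fin d → Fin (r + 1)) → ℤ := fun x e => x (Sum.inr e)
  let st : ((Fin s × Fin d) ⊕ ((Fin t → Fin (r + 1)) × (Fin s × Fin d → Fin (r + 1))) → ℤ) →
    ∀ p : ℕ, ℕ → Fin s × Fin d → ZMod p := fun x p n q =>
      seq (fun i => (c' i : ZMod p)) (fun i => ((a₀ (q.1, i) + x (Sum.inl (q.1, i)) : ℤ) : ZMod p))
        (n + q.2)
  have h1 := hmain H hH
    (fun x => if h : ∃ m, AdmAt (W x) m then W x (h.choose, 0) else 1)
    (by
      intro x X hX hx
      split_ifs with h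
      · rw [one_mul, pow_one]
        exact hx _
      · rw [one_mul, pow_one, Int.cast_one, abs_one]
        exact hX)
    (fun x p => if ∃ m, AdmAt (W x) m then
      {k : Fin t → ZMod p | ∀ n, val2 (fun e => (W x e : ZMod p)) k (st x p n) ≠ 0} else
      Set.univ)
    (by
      intro x p hp hpD
      have : Fact p.Prime := ⟨hp.1⟩
      split_ifs at hpD ⊢ with h
      · have hch := h.choose_spec
        refine card_good p l ((p - 1) / l) (Nat.mul_div_cancel' hp.2.2.1)
          (by rw [Fintype.card_fin, hl]; omega) (st x p) ?_ _ h.choose ?_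
        · intro n
          funext q
          change seq _ _ _ = seq _ _ _
          have e : n + (p - 1) / l + (q.2 : ℕ) = n + q.2 + (p - 1) / l := by ring
          rw [e]
          exact hp.2.2.2 _ _
        · constructor
          · simp only
            rw [Ne, ZMod.intCast_zmod_eq_zero_iff_dvd]
            exact hpD
          · intro f hf
            simp only
            rw [hch.2 f hf, Int.cast_zero]
      · have hun : Nat.card (Set.univ : Set (Fin t → ZMod p)) = p ^ t := by
          rw [Nat.card_univ, Nat.card_eq_fintype_card, Fintype.card_fun, ZMod.card,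
            Fintype.card_fin]
        rw [hun, Fintype.card_fin]
        push_cast
        have : (0 : ℝ) ≤ (p : ℝ) ^ t := by positivity
        linarith)
    b
  rw [Fintype.card_fin] at h1
  refine le_trans ?_ h1
  have hfin : ∀ Q : (Fin t → ℤ) → Prop, Finite {v : Fin t → ℤ // v ∈ bx b H ∧ Q v} := fun Q =>
    Finite.of_injective (fun v => (⟨v.1, v.2.1⟩ : {v // v ∈ bx b H})) (by
      intro v w hvw
      exact Subtype.ext (congrArg (fun z : {v // v ∈ bx b H} => z.1) hvw))
  have := hfin (fun v => ∃ x : (Fin s × Fin d) ⊕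
    ((Fin t → Fin (r + 1)) × (Fin s × Fin d → Fin (r + 1))) → ℤ,
    (∀ j, |(x j : ℝ)| ≤ (H : ℝ) ^ δ) ∧
    (if h : ∃ m, AdmAt (W x) m then W x (h.choose, 0) else 1) ≠ 0 ∧
    ∀ p, PerP l c' 3 p → ¬ (p : ℤ) ∣ (if h : ∃ m, AdmAt (W x) m then W x (h.choose, 0) else 1) →
      (p : ℝ) ≤ Real.log H ^ A →
      (fun i => (v i : ZMod p)) ∉ (if ∃ m, AdmAt (W x) m then
      {k : Fin t → ZMod p | ∀ n, val2 (fun e => (W x e : ZMod p)) k (st x p n) ≠ 0} else
      Set.univ))
  have hle : Nat.card {k : Fin t → ℤ // k ∈ bx b H ∧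
        ¬ Easy0 r c a₀ ((H : ℝ) ^ δ) (Real.log H ^ A) k} ≤
      Nat.card {v : Fin t → ℤ // v ∈ bx b H ∧ ∃ x : (Fin s × Fin d) ⊕
    ((Fin t → Fin (r + 1)) × (Fin s × Fin d → Fin (r + 1))) → ℤ,
    (∀ j, |(x j : ℝ)| ≤ (H : ℝ) ^ δ) ∧
    (if h : ∃ m, AdmAt (W x) m then W x (h.choose, 0) else 1) ≠ 0 ∧
    ∀ p, PerP l c' 3 p → ¬ (p : ℤ) ∣ (if h : ∃ m, AdmAt (W x) m then W x (h.choose, 0) else 1) →
      (p : ℝ) ≤ Real.log H ^ A →
      (fun i => (v i : ZMod p)) ∉ (if ∃ m, AdmAt (W x) m then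
      {k : Fin t → ZMod p | ∀ n, val2 (fun e => (W x e : ZMod p)) k (st x p n) ≠ 0} else
      Set.univ)} := by
    refine Nat.card_le_card_of_injective (fun k => ⟨k.1, k.2.1, ?_⟩) ?_
    · have hk := k.2.2
      unfold Easy0 at hk
      push Not at hk
      obtain ⟨a, u, hu, ha, w, hw, hwX, hcert⟩ := hk
      have hW : W (Sum.elim (fun q => a q - a₀ q) w) = w := rfl
      refine ⟨Sum.elim (fun q => a q - a₀ q) w, ?_, ?_, ?_⟩
      · rintro (q | e)
        · exact ha q
        · exact hwX e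
      · rw [hW, dif_pos hw]
        exact hw.choose_spec.1
      · intro p hp hpD hpY hmem
        rw [hW] at hmem
        rw [if_pos hw] at hmem
        have hst : ∀ n, st (Sum.elim (fun q => a q - a₀ q) w) p n =
            fun q => ((u q.1 (n + q.2) : ℤ) : ZMod p) := by
          intro n
          funext q
          have e1 := (isSeq_iff c (fun i => a (q.1, i)) (u q.1)).1 (hu q.1) (n + q.2)
          rw [e1]
          have e2 := map_seq (Int.castRingHom (ZMod p)) c' (fun i => a (q.1, i)) (n + q.2)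
          rw [eq_intCast] at e2
          rw [← hc', e2]
          change seq _ _ _ = seq _ _ _
          congr 1
          funext i
          simp
        have hval : ∀ n, ((val2 w k.1 (fun q => u q.1 (n + q.2)) : ℤ) : ZMod p) =
            val2 (fun e => (w e : ZMod p)) (fun i => (k.1 i : ZMod p))
              (st (Sum.elim (fun q => a q - a₀ q) w) p n) := by
          intro n
          rw [val2_cast, hst]
        have hper : Function.Periodic (st (Sum.elim (fun q => a q - a₀ q) w) p) (p - 1) := by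
          have h3 : Function.Periodic (st (Sum.elim (fun q => a q - a₀ q) w) p)
              ((p - 1) / l) := by
            intro n
            funext q
            change seq _ _ _ = seq _ _ _
            have e : n + (p - 1) / l + (q.2 : ℕ) = n + q.2 + (p - 1) / l := by ring
            rw [e]
            exact hp.2.2.2 _ _
          have h4 := h3.nat_mul l
          have h5 : l * ((p - 1) / l) = p - 1 := Nat.mul_div_cancel' hp.2.2.1
          simpa [h5] using h4
        obtain ⟨n, hn⟩ := hcert p hp.1 hpY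
        apply hn
        · intro hdv
          rw [← ZMod.intCast_zmod_eq_zero_iff_dvd, hval] at hdv
          exact hmem n hdv
        · rw [← ZMod.intCast_zmod_eq_zero_iff_dvd, Int.cast_sub, hval, hval, hper, sub_self]
    · intro v v' h
      have h5 := Subtype.ext_iff.1 h
      exact Subtype.ext h5
  exact_mod_cast hle

end Pool.Agent.K3h1.PS
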