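import Pool.Agent.K3h1.PS.Uni

set_option autoImplicit false

/-!
Many primes modulo which a simple recurrence has a period `(p - 1) / l`.
-/

namespace Pool.Agent.K3h1.PS

open Pool.Agent.H684R3.Smo Pool.Agent.H884R2.Sko Pool.Agent.H692R2.USS Polynomial Finset

open Classical in
theorem dvd_of_splits (p l : ℕ) [Fact p.Prime] (hl : 1 ≤ l)
    (h3 : (cyclotomic l (ZMod p)).Splits) (hpl : ¬ p ∣ l) : l ∣ p - 1 := by
  have hlne : NeZero ((l : ℕ) : ZMod p) := by
    refine ⟨fun h => hpl ?_⟩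
    rwa [ZMod.natCast_eq_zero_iff] at h
  obtain ⟨μ, hμ⟩ := h3.exists_eval_eq_zero (by
    rw [degree_cyclotomic]
    have := Nat.totient_pos.2 hl
    exact_mod_cast this.ne')
  have hprim : IsPrimitiveRoot μ l := isRoot_cyclotomic_iff.1 hμ
  apply hprim.dvd_of_pow_eq_one
  apply ZMod.pow_card_sub_one_eq_one
  rintro rfl
  have := hprim.pow_eq_one
  rw [zero_pow (by omega)] at this
  exact zero_ne_one this

open Classical in
theorem period_l (p l : ℕ) [Fact p.Prime] (hl : 1 ≤ l) (hdvd : l ∣ p - 1) {d : ℕ}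
    (c : Fin d → ZMod p) (h1 : (chi c).Splits) (h2 : (expand (ZMod p) l (chi c)).Splits)
    (hsep : (chi c).Separable) (h0 : (chi c).coeff 0 ≠ 0) (v : Fin d → ZMod p) (n : ℕ) :
    seq c v (n + (p - 1) / l) = seq c v n := by
  have hp : p.Prime := Fact.out
  have hne : chi c ≠ 0 := (chi_monic c).ne_zero
  set S : Finset (ZMod p) := (chi c).roots.toFinset with hS
  have hnd : (chi c).roots.Nodup := nodup_roots hsep
  have hval : S.val = (chi c).roots := by
    rw [hS, Multiset.toFinset_val, hnd.dedup]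
  have hcard : S.card = d := by
    rw [Finset.card_def, hval, ← h1.natDegree_eq_card_roots, chi_natDegree]
  have hpoly : poly S = chi c := by
    unfold poly
    rw [Finset.prod_eq_multiset_prod, hval]
    exact (h1.eq_prod_roots_of_monic (chi_monic c)).symm
  have hcoef : coef d S = c := by
    funext i
    unfold coef
    rw [hpoly, chi_coeff, neg_neg]
  have hT : p - 1 = l * ((p - 1) / l) := (Nat.mul_div_cancel' hdvd).symm
  have hST : ∀ a ∈ S, a ^ ((p - 1) / l) = 1 := by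
    intro a ha
    rw [hS, Multiset.mem_toFinset, mem_roots hne] at ha
    have ha0 : a ≠ 0 := by
      rintro rfl
      rw [IsRoot, ← coeff_zero_eq_eval_zero] at ha
      exact h0 ha
    have h4 : (X ^ l - C a : (ZMod p)[X]) ∣ expand (ZMod p) l (chi c) := by
      have h5 := map_dvd (expand (ZMod p) l) (dvd_iff_isRoot.2 ha)
      rwa [map_sub, expand_X, expand_C] at h5
    have h6 : expand (ZMod p) l (chi c) ≠ 0 := by
      rw [Ne, expand_eq_zero (by omega)]; exact hne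
    have h7 := h2.of_dvd h6 h4
    obtain ⟨β, hβ⟩ := h7.exists_eval_eq_zero (by
      rw [degree_X_pow_sub_C (by omega)]
      exact_mod_cast (by omega : l ≠ 0))
    rw [eval_sub, eval_pow, eval_X, eval_C, sub_eq_zero] at hβ
    have hβ0 : β ≠ 0 := by
      rintro rfl
      rw [zero_pow (by omega)] at hβ
      exact ha0 hβ.symm
    rw [← hβ, ← pow_mul, ← hT]
    exact ZMod.pow_card_sub_one_eq_one hβ0
  have h8 := seq_periodic d ((p - 1) / l) S hcard hST v n
  rwa [hcoef] at h8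

/-- `p ≥ p₀` is a prime `≡ 1` modulo `l` modulo which the recurrence has period `(p - 1) / l`. -/
def PerP {d : ℕ} (l : ℕ) (c : Fin d → ℤ) (p₀ p : ℕ) : Prop :=
  p.Prime ∧ p₀ ≤ p ∧ l ∣ p - 1 ∧ ∀ (v : Fin d → ZMod p) (n : ℕ),
    seq (fun i => (c i : ZMod p)) v (n + (p - 1) / l) = seq (fun i => (c i : ZMod p)) v n

theorem primes_per (l : ℕ) (hl : 1 ≤ l) {d : ℕ} (c : Fin d → ℤ)
    (h0 : (chi c).coeff 0 ≠ 0) (hsq : Squarefree ((chi c).map (Int.castRingHom ℚ))) (p₀ : ℕ) :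
    ∃ θ : ℝ, 0 < θ ∧ ∃ y₁ : ℕ, ∀ y : ℕ, y₁ ≤ y →
      (y : ℝ) ^ θ ≤ (Nat.card {p : ℕ // PerP l c p₀ p ∧ p ≤ y} : ℝ) := by
  obtain ⟨r, hr0, hr⟩ := separable_mod (chi c) hsq
  set G : ℤ[X] := chi c * (expand ℤ l (chi c) * cyclotomic l ℤ) with hG
  have hGm : G.Monic := (chi_monic c).mul (((chi_monic c).expand (by omega)).mul
    (cyclotomic.monic l ℤ))
  set q₀ : ℕ := p₀ + l + 3 + r.natAbs + ((chi c).coeff 0).natAbs with hq₀
  have hgood : ∀ p : ℕ, p.Prime → q₀ ≤ p → (G.map (Int.castRingHom (ZMod p))).Splits →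
      PerP l c p₀ p := by
    intro p hp hpN hsp
    haveI : Fact p.Prime := ⟨hp⟩
    have hGne : G.map (Int.castRingHom (ZMod p)) ≠ 0 := (hGm.map _).ne_zero
    have hdv : ∀ z : ℤ, z ≠ 0 → z.natAbs < p → ¬ (p : ℤ) ∣ z := by
      intro z hz hzp hdvd
      have := Int.natAbs_dvd_natAbs.2 hdvd
      rw [Int.natAbs_natCast] at this
      exact absurd (Nat.le_of_dvd (Int.natAbs_pos.2 hz) this) (not_le.2 hzp)
    have hcm : (chi c).map (Int.castRingHom (ZMod p)) = chi (fun i => (c i : ZMod p)) := by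
      rw [chi_map]; rfl
    have e1 : (chi (fun i => (c i : ZMod p))) ∣ G.map (Int.castRingHom (ZMod p)) := by
      rw [← hcm, hG, Polynomial.map_mul]; exact dvd_mul_right _ _
    have e2 : expand (ZMod p) l (chi (fun i => (c i : ZMod p))) ∣
        G.map (Int.castRingHom (ZMod p)) := by
      rw [← hcm, ← map_expand, hG, Polynomial.map_mul, Polynomial.map_mul]
      exact (dvd_mul_right _ _).mul_left _
    have e3 : cyclotomic l (ZMod p) ∣ G.map (Int.castRingHom (ZMod p)) := by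
      rw [← map_cyclotomic l (Int.castRingHom (ZMod p)), hG, Polynomial.map_mul,
        Polynomial.map_mul]
      exact (dvd_mul_left _ _).mul_left _
    have hsep : (chi (fun i => (c i : ZMod p))).Separable := by
      rw [← hcm]
      exact hr p hp (hdv r hr0 (by omega))
    have hc0 : (chi (fun i => (c i : ZMod p))).coeff 0 ≠ 0 := by
      rw [← hcm, coeff_map, eq_intCast, Ne, ZMod.intCast_zmod_eq_zero_iff_dvd]
      exact hdv _ h0 (by omega)
    have hdvd : l ∣ p - 1 := dvd_of_splits p l hl (hsp.of_dvd hGne e3) (by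
      intro h
      exact absurd (Nat.le_of_dvd (by omega) h) (by omega))
    exact ⟨hp, by omega, hdvd, fun v n => period_l p l hl hdvd _ (hsp.of_dvd hGne e1)
      (hsp.of_dvd hGne e2) hsep hc0 v n⟩
  obtain ⟨K, hF, hNF, hK⟩ := splitField_one G hGm
  obtain ⟨θ, hθ, y₀, hsup⟩ := @t8 K hF hNF
  have hev : ∀ᶠ y : ℕ in Filter.atTop, (q₀ : ℝ) + 1 ≤ (y : ℝ) ^ (θ / 2) := by
    have : Filter.Tendsto (fun y : ℕ => (y : ℝ) ^ (θ / 2)) Filter.atTop Filter.atTop :=
      (tendsto_rpow_atTop (by positivity)).comp tendsto_natCast_atTop_atTop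
    exact this.eventually_ge_atTop _
  obtain ⟨y₂, hy₂⟩ := Filter.eventually_atTop.1 hev
  refine ⟨θ / 2, by positivity, max y₀ y₂, fun y hy => ?_⟩
  have h1 := hsup y ((le_max_left _ _).trans hy)
  have h2 := hy₂ y ((le_max_right _ _).trans hy)
  have hfinP : Finite {p : ℕ // PerP l c p₀ p ∧ p ≤ y} :=
    Set.Finite.subset (Set.finite_Iic y) (fun p hp => hp.2)
  have h3 : Nat.card {p : ℕ // (p.Prime ∧ @HasDegOne K hF hNF p) ∧ p ≤ y} ≤
      Nat.card {p : ℕ // PerP l c p₀ p ∧ p ≤ y} + q₀ := by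
    have e : Nat.card ({p : ℕ // PerP l c p₀ p ∧ p ≤ y} ⊕ Fin q₀) =
        Nat.card {p : ℕ // PerP l c p₀ p ∧ p ≤ y} + q₀ := by
      rw [Nat.card_sum, Nat.card_eq_fintype_card (α := Fin q₀), Fintype.card_fin]
    rw [← e]
    apply Nat.card_le_card_of_injective (fun p : {p : ℕ // (p.Prime ∧ @HasDegOne K hF hNF p) ∧
      p ≤ y} => if h : p.1 < q₀ then Sum.inr (⟨p.1, h⟩ : Fin q₀) else
        Sum.inl (⟨p.1, hgood p.1 p.2.1.1 (not_lt.1 h) (hK p.1 p.2.1.1 p.2.1.2), p.2.2⟩ :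
          {p : ℕ // PerP l c p₀ p ∧ p ≤ y}))
    intro x x' h
    apply Subtype.ext
    simp only at h
    split_ifs at h with h4 h5 h5
    · simpa using h
    · simpa using h
  have h4 : ((Nat.card {p : ℕ // (p.Prime ∧ @HasDegOne K hF hNF p) ∧ p ≤ y} : ℕ) : ℝ) ≤
      (Nat.card {p : ℕ // PerP l c p₀ p ∧ p ≤ y} : ℝ) + q₀ := by exact_mod_cast h3
  have h5 : (y : ℝ) ^ θ = (y : ℝ) ^ (θ / 2) * (y : ℝ) ^ (θ / 2) := by
    rcases Nat.eq_zero_or_pos y with rfl | hy0
    · rw [Nat.cast_zero, Real.zero_rpow hθ.ne', Real.zero_rpow (by positivity)]; ring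
    · rw [← Real.rpow_add (by exact_mod_cast hy0)]; congr 1; ring
  have h6 : (0 : ℝ) ≤ (q₀ : ℝ) := by positivity
  nlinarith

end Pool.Agent.K3h1.PS
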